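import Pool.Agent.W14.US.Stm

/-! US-LIM (helper199): the limit function. -/

set_option autoImplicit false
open Complex MeasureTheory Filter Topology
open scoped ContDiff

namespace Pool.Agent.W199.US

open Pool.Agent.W14.US

theorem isOpen_strip (b : Bool) (q : ℚ) (s : ℝ) : IsOpen {z : ℂ | |co b z - q| < s} := by
  have hc : Continuous (fun z : ℂ => co b z) := by
    cases b
    · simpa [co] using Complex.continuous_re
    · simpa [co] using Complex.continuous_im
  exact isOpen_lt (hc.sub continuous_const).abs continuous_const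

theorem lim : S_DER → S_CR → S_ITER → S_F := by
  intro hDER hCR hIT
  obtain ⟨k, B, hAd, hB, hstep, hz, h0, h2⟩ := hIT
  have hd : ∀ n z, dist (T (k n) z) (T (k (n + 1)) z) ≤ (1 / 8) * (1 / 2) ^ n := by
    intro n z
    rw [dist_comm, dist_eq_norm]
    exact hstep n z
  have hcs : ∀ z, CauchySeq (fun n => T (k n) z) := fun z =>
    cauchySeq_of_le_geometric (1 / 2) (1 / 8) (by norm_num) (fun n => hd n z)
  choose F hF using fun z => cauchySeq_tendsto_of_complete (hcs z)
  have hFn : ∀ n z, dist (T (k n) z) (F z) ≤ (1 / 4) * (1 / 2) ^ n := by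
    intro n z
    have := dist_le_of_le_geometric_of_tendsto (1 / 2) (1 / 8) (by norm_num) (fun n => hd n z)
      (hF z) n
    refine this.trans (le_of_eq ?_)
    ring
  have hB0 : 0 ≤ B := le_trans (by positivity) (hB 0 0)
  have hdiff : ∀ n, Differentiable ℝ (T (k n)) := fun n => (hDER (k n) (hAd n)).1
  have hfd : ∀ n z, ‖fderiv ℝ (T (k n)) z‖ ≤ B := by
    intro n z
    have h1 := (hCR (T (k n)) (hdiff n)).1 z
    obtain ⟨_, h3, h4⟩ := (hDER (k n) (hAd n)).2 z
    rw [h4, h3] at h1
    exact h1.trans (hB n z)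
  have hLip : ∀ n z w, ‖T (k n) z - T (k n) w‖ ≤ B * ‖z - w‖ := fun n z w =>
    Convex.norm_image_sub_le_of_norm_fderiv_le (𝕜 := ℝ) (fun x _ => hdiff n x)
      (fun x _ => hfd n x) convex_univ (Set.mem_univ w) (Set.mem_univ z)
  have hLipF : ∀ z w, ‖F z - F w‖ ≤ B * ‖z - w‖ := fun z w =>
    le_of_tendsto' ((hF z).sub (hF w)).norm (fun n => hLip n z w)
  refine ⟨F, max B 1, lt_of_lt_of_le one_pos (le_max_right _ _), fun z w => (hLipF z w).trans
    (mul_le_mul_of_nonneg_right (le_max_left _ _) (norm_nonneg _)), ?_, ?_, ?_⟩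
  · intro b q
    obtain ⟨s, hs, N, hN⟩ := hz b q
    refine ⟨s, hs, ?_⟩
    have huni : TendstoUniformly (fun n => T (k n)) F atTop := by
      rw [Metric.tendstoUniformly_iff]
      intro ε hε
      have ht : Tendsto (fun n : ℕ => (1 / 4 : ℝ) * (1 / 2) ^ n) atTop (𝓝 0) := by
        have := (tendsto_pow_atTop_nhds_zero_of_lt_one (r := (1 / 2 : ℝ)) (by norm_num)
          (by norm_num)).const_mul (1 / 4 : ℝ)
        simpa using this
      filter_upwards [ht.eventually (gt_mem_nhds hε)] with n hn z
      rw [dist_comm]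
      exact (hFn n z).trans_lt hn
    refine TendstoLocallyUniformlyOn.differentiableOn (F := fun n => T (k n)) (φ := atTop)
      huni.tendstoUniformlyOn.tendstoLocallyUniformlyOn ?_ (isOpen_strip b q s)
    filter_upwards [eventually_ge_atTop N] with n hn z hzU
    refine ((hCR (T (k n)) (hdiff n)).2 z ?_).differentiableWithinAt
    rw [((hDER (k n) (hAd n)).2 z).2.1]
    exact hN n hn z hzU
  · have h := hFn 0 0
    rw [h0, dist_eq_norm] at h
    have h' := norm_sub_norm_le (1 : ℂ) (F 0)
    rw [norm_one] at h'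
    norm_num at h
    linarith
  · intro z hz2
    have h := hFn 0 z
    rw [h2 z hz2, dist_eq_norm, zero_sub, norm_neg] at h
    norm_num at h
    linarith

end Pool.Agent.W199.US
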